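import Pool.Agent.helper47.MSW.SpecA
import Pool.Agent.helper47.MSW.SpecC

set_option autoImplicit false

namespace Pool.Agent.MSW

open Equiv Finset Function MeasureTheory Pool.Agent.helper48.PP
open Pool.Agent.DSW (Pr Has GP wt)
open scoped ENNReal Classical

noncomputable section

theorem SWL_split (s : ℕ) (ε : Bool) (X Y : List Pat) :
    X ++ Blk s ε ++ Y = (X ++ Iz s) ++ [sw ε] ++ (Iz s ++ Y) := by
  unfold Blk
  simp only [List.append_assoc]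

theorem SWL_add {p q : Pt} (h : p ≤ q) : p + (q - p) = q := by
  apply Prod.ext
  · show p.1 + (q.1 - p.1) = q.1
    have := h.1
    omega
  · show p.2 + (q.2 - p.2) = q.2
    have := h.2
    omega

/-- one box -/
theorem SWL_one (hHLA : HLA_stmt) (hQDP : QDP_stmt) (hQSM : QSM_stmt) (hSPT : SPT_stmt)
    (hTRL : TRL_stmt) (hGPP : GPP_stmt) (hQIN : QIN_stmt) (s H : ℕ) (d : ℝ) (a b : ℝ≥0∞) (hd0 : 0 ≤ d) (hd1 : d ≤ 1)
    (X Y : List Pat) (w : Pt)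
    (hgap : ∀ z : Pt, Jb H z → Pm d {ω | HL (Blk s false) ω 0 z} + a ≤ Pm d {ω | HL (Blk s true) ω 0 z} + b) :
    Pm d {ω | HL (X ++ Blk s false ++ Y) ω 0 w} + a * (∑' pq : Pt × Pt,
      if pq.1 ≤ pq.2 ∧ Jb H (pq.2 - pq.1) then Pm d {ω | Qe X Y ω w pq.1 pq.2} else 0) ≤
    Pm d {ω | HL (X ++ Blk s true ++ Y) ω 0 w} + Pm d {ω | ¬ GP (tr ω 0 w)} + b := by
  set J : Pt → Pt → Prop := fun p q => p ≤ q ∧ Jb H (q - p) with hJ
  set Q : Set Om := {ω | ∀ p q, J p q → ¬ Qe X Y ω w p q} with hQ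
  obtain ⟨q1, q2, q3, q4⟩ := hQSM d X Y w hd0 hd1
  have hQd : ∀ p q, Dep (box 0 w) {ω | Qe X Y ω w p q} := fun p q =>
    (hQDP X Y w p q).mono Finset.sdiff_subset
  -- the part without a unique pair
  have hgpp : Pm d ({ω | HL (X ++ Blk s false ++ Y) ω 0 w} ∩ Q) ≤
      Pm d ({ω | HL (X ++ Blk s true ++ Y) ω 0 w} ∩ Q) + Pm d {ω | ¬ GP (tr ω 0 w)} := by
    rw [SWL_split, SWL_split]
    refine hGPP d (X ++ Iz s) (Iz s ++ Y) w Q hd0 hd1 ?_ ?_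
    · intro ω ω' hag
      constructor
      · intro h p q hpq hqe
        exact h p q hpq ((hQd p q ω ω' hag).2 hqe)
      · intro h p q hpq hqe
        exact h p q hpq ((hQd p q ω ω' hag).1 hqe)
    · intro ω ω' hag h p q hpq hqe
      exact h p q hpq ((hQIN X (Iz s) (Iz s) Y ω ω' w hag p q).2 hqe)
  have hdec : ∀ ε : Bool, Pm d {ω | HL (X ++ Blk s ε ++ Y) ω 0 w} =
      Pm d ({ω | HL (X ++ Blk s ε ++ Y) ω 0 w} ∩ Q) + ∑' pq : Pt × Pt, if J pq.1 pq.2 then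
        Pm d ({ω | HL (X ++ Blk s ε ++ Y) ω 0 w} ∩ {ω | Qe X Y ω w pq.1 pq.2}) else 0 := by
    intro ε
    refine (q3 J (box 0 w) _ (hHLA.2.2.2.1 (X ++ Blk s ε ++ Y) 0 w)).trans ?_
    refine congrArg (fun t => Pm d ({ω | HL (X ++ Blk s ε ++ Y) ω 0 w} ∩ Q) + t) (tsum_congr fun pq => ?_)
    by_cases h : J pq.1 pq.2
    · rw [if_pos h, if_pos h]
    · rw [if_neg h, if_neg h]
  -- the part with a unique pair
  have hpr : ∀ (ε : Bool) (p q : Pt), J p q →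
      Pm d ({ω | HL (X ++ Blk s ε ++ Y) ω 0 w} ∩ {ω | Qe X Y ω w p q}) =
        Pm d {ω | Qe X Y ω w p q} * Pm d {ω | HL (Blk s ε) ω 0 (q - p)} := by
    intro ε p q hpq
    have e1 : {ω | HL (X ++ Blk s ε ++ Y) ω 0 w} ∩ {ω | Qe X Y ω w p q} =
        {ω | Qe X Y ω w p q} ∩ {ω | HL (Blk s ε) ω p q} := by
      ext ω
      constructor
      · rintro ⟨h1, h2⟩
        exact ⟨h2, (hSPT.2.1 X (Blk s ε) Y ω w p q h2).1 h1⟩
      · rintro ⟨h1, h2⟩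
        exact ⟨(hSPT.2.1 X (Blk s ε) Y ω w p q h1).2 h2, h1⟩
    rw [e1, q2]
    have e2 := hTRL.2 (Blk s ε) d p (q - p) hd0 hd1
    rw [SWL_add hpq.1] at e2
    rw [e2]
  have hsum : (∑' pq : Pt × Pt, if J pq.1 pq.2 then
        Pm d ({ω | HL (X ++ Blk s false ++ Y) ω 0 w} ∩ {ω | Qe X Y ω w pq.1 pq.2}) else 0) +
      a * (∑' pq : Pt × Pt, if J pq.1 pq.2 then Pm d {ω | Qe X Y ω w pq.1 pq.2} else 0) ≤
      (∑' pq : Pt × Pt, if J pq.1 pq.2 then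
        Pm d ({ω | HL (X ++ Blk s true ++ Y) ω 0 w} ∩ {ω | Qe X Y ω w pq.1 pq.2}) else 0) + b := by
    have h1 : b * (∑' pq : Pt × Pt, Pm d {ω | Qe X Y ω w pq.1 pq.2}) ≤ b := by
      calc b * (∑' pq : Pt × Pt, Pm d {ω | Qe X Y ω w pq.1 pq.2}) ≤ b * 1 := by gcongr
        _ = b := mul_one b
    refine le_trans ?_ (add_le_add_right h1 _)
    rw [← ENNReal.tsum_mul_left, ← ENNReal.tsum_mul_left, ← ENNReal.tsum_add, ← ENNReal.tsum_add]
    refine ENNReal.tsum_le_tsum fun pq => ?_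
    by_cases hpq : J pq.1 pq.2
    · rw [if_pos hpq, if_pos hpq, if_pos hpq, hpr false _ _ hpq, hpr true _ _ hpq]
      have h2 := hgap (pq.2 - pq.1) hpq.2
      calc Pm d {ω | Qe X Y ω w pq.1 pq.2} * Pm d {ω | HL (Blk s false) ω 0 (pq.2 - pq.1)} +
            a * Pm d {ω | Qe X Y ω w pq.1 pq.2}
          = Pm d {ω | Qe X Y ω w pq.1 pq.2} * (Pm d {ω | HL (Blk s false) ω 0 (pq.2 - pq.1)} + a) := by ring
        _ ≤ Pm d {ω | Qe X Y ω w pq.1 pq.2} * (Pm d {ω | HL (Blk s true) ω 0 (pq.2 - pq.1)} + b) := by gcongr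
        _ = _ := by ring
    · rw [if_neg hpq, if_neg hpq, if_neg hpq]
      simp
  rw [hdec false, hdec true]
  calc Pm d ({ω | HL (X ++ Blk s false ++ Y) ω 0 w} ∩ Q) + (∑' pq : Pt × Pt, if J pq.1 pq.2 then
        Pm d ({ω | HL (X ++ Blk s false ++ Y) ω 0 w} ∩ {ω | Qe X Y ω w pq.1 pq.2}) else 0) +
      a * (∑' pq : Pt × Pt, if J pq.1 pq.2 then Pm d {ω | Qe X Y ω w pq.1 pq.2} else 0)
      = Pm d ({ω | HL (X ++ Blk s false ++ Y) ω 0 w} ∩ Q) + ((∑' pq : Pt × Pt, if J pq.1 pq.2 then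
        Pm d ({ω | HL (X ++ Blk s false ++ Y) ω 0 w} ∩ {ω | Qe X Y ω w pq.1 pq.2}) else 0) +
      a * (∑' pq : Pt × Pt, if J pq.1 pq.2 then Pm d {ω | Qe X Y ω w pq.1 pq.2} else 0)) := by rw [add_assoc]
    _ ≤ (Pm d ({ω | HL (X ++ Blk s true ++ Y) ω 0 w} ∩ Q) + Pm d {ω | ¬ GP (tr ω 0 w)}) +
      ((∑' pq : Pt × Pt, if J pq.1 pq.2 then
        Pm d ({ω | HL (X ++ Blk s true ++ Y) ω 0 w} ∩ {ω | Qe X Y ω w pq.1 pq.2}) else 0) + b) :=
        add_le_add hgpp hsum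
    _ = _ := by ring

theorem SWL (hHLA : HLA_stmt) (hQDP : QDP_stmt) (hQSM : QSM_stmt) (hSPT : SPT_stmt)
    (hTRL : TRL_stmt) (hGPP : GPP_stmt) (hQIN : QIN_stmt) (hGAP : GAP_stmt) (hGPE : GPE_stmt)
    (hGEW : GEW_stmt) (hSQS : SQS_stmt) : SWL_stmt := by
  intro s
  obtain ⟨n, c0, hc0, hc01, hgap⟩ := hGAP s
  refine ⟨n, fun M hM _ => ?_⟩
  obtain ⟨θ₁, hθ1, hθ11, hsqs⟩ := hSQS M (by omega)
  refine ⟨c0 / 648, min θ₁ (1 / 8), by positivity, by linarith, lt_min hθ1 (by norm_num),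
    (min_le_left _ _).trans hθ11, fun θ H X Y hθ hθ0 hMH hnH hX hY => ?_⟩
  have hθa : θ ≤ θ₁ := hθ0.trans (min_le_left _ _)
  have hθb : θ ≤ 1 / 8 := hθ0.trans (min_le_right _ _)
  have hH1 : 1 ≤ H := by omega
  have hHr : (1 : ℝ) ≤ H := by exact_mod_cast hH1
  set d := den θ H with hd
  have hd0 : 0 ≤ d := by
    rw [hd]
    unfold den
    positivity
  have hd1 : d ≤ 1 := by
    rw [hd]
    unfold den
    rw [div_le_one (by positivity)]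
    nlinarith
  obtain ⟨g1, g2⟩ := hGPE H θ hH1 hθ.le (by linarith)
  obtain ⟨-, -, -, -, w5, -⟩ := hGEW H hH1
  set a : ℝ≥0∞ := ENNReal.ofReal (c0 * θ ^ n) with ha
  set b : ℝ≥0∞ := ENNReal.ofReal (16 / H) with hb
  have hbox : ∀ w : Pt, Pm d {ω | HL (X ++ Blk s false ++ Y) ω 0 w} + a * (∑' pq : Pt × Pt,
      if pq.1 ≤ pq.2 ∧ Jb H (pq.2 - pq.1) then Pm d {ω | Qe X Y ω w pq.1 pq.2} else 0) ≤
      Pm d {ω | HL (X ++ Blk s true ++ Y) ω 0 w} + Pm d {ω | ¬ GP (tr ω 0 w)} + b := by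
    intro w
    refine SWL_one hHLA hQDP hQSM hSPT hTRL hGPP hQIN s H d a b hd0 hd1 X Y w fun z hz => ?_
    exact (hgap θ H z hθ hθb hH1 hnH hz).trans (add_le_add_right (g2 z hz) _)
  -- average
  have havg : Z H d (X ++ Blk s false ++ Y) + a * SQ H d X Y ≤
      Z H d (X ++ Blk s true ++ Y) + ENNReal.ofReal (6 / H) + b := by
    have h1 : Z H d (X ++ Blk s false ++ Y) + a * SQ H d X Y =
        ∑' w : Pt, wt H w.1 * wt H w.2 * (Pm d {ω | HL (X ++ Blk s false ++ Y) ω 0 w} + a * (∑' pq : Pt × Pt,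
          if pq.1 ≤ pq.2 ∧ Jb H (pq.2 - pq.1) then Pm d {ω | Qe X Y ω w pq.1 pq.2} else 0)) := by
      unfold Z SQ
      rw [← ENNReal.tsum_mul_left, ← ENNReal.tsum_add]
      refine tsum_congr fun w => ?_
      ring
    have h2 : ∑' w : Pt, wt H w.1 * wt H w.2 * (Pm d {ω | HL (X ++ Blk s true ++ Y) ω 0 w} +
        Pm d {ω | ¬ GP (tr ω 0 w)} + b) ≤ Z H d (X ++ Blk s true ++ Y) + ENNReal.ofReal (6 / H) + b := by
      have h3 : ∑' w : Pt, wt H w.1 * wt H w.2 * (Pm d {ω | HL (X ++ Blk s true ++ Y) ω 0 w} +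
          Pm d {ω | ¬ GP (tr ω 0 w)} + b) = Z H d (X ++ Blk s true ++ Y) +
          (∑' w : Pt, wt H w.1 * wt H w.2 * Pm d {ω | ¬ GP (tr ω 0 w)}) + (∑' w : Pt, wt H w.1 * wt H w.2) * b := by
        unfold Z
        rw [← ENNReal.tsum_mul_right, ← ENNReal.tsum_add, ← ENNReal.tsum_add]
        refine tsum_congr fun w => ?_
        ring
      rw [h3, w5, one_mul]
      gcongr
    rw [h1]
    refine le_trans (ENNReal.tsum_le_tsum fun w => ?_) h2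
    exact mul_le_mul_right (hbox w) _
  have hsq := hsqs θ H X Y hθ hθa hMH hX hY
  have e1 : ENNReal.ofReal (c0 / 648 * θ ^ n) * (A1 H d X * A1 H d Y.reverse) ≤ a * SQ H d X Y := by
    have h1 : ENNReal.ofReal (c0 / 648 * θ ^ n) = a * ENNReal.ofReal (1 / 648) := by
      rw [ha, ← ENNReal.ofReal_mul (by positivity)]
      congr 1
      ring
    rw [h1, mul_assoc]
    gcongr
  have e2 : ENNReal.ofReal (22 / H) = ENNReal.ofReal (6 / H) + b := by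
    rw [hb, ← ENNReal.ofReal_add (by positivity) (by positivity)]
    congr 1
    ring
  rw [e2, ← add_assoc]
  exact (add_le_add_right e1 _).trans havg

end

end Pool.Agent.MSW
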